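import Mathlib

/-!
# Extending total colourings from precoloured matchings

A graph `G` on 26 vertices with maximum degree 7, a matching `H` in `G` and a total colouring of
`H` in `G` with `7 + 3 = 10` colours which does not extend to a total colouring of `G` with ten
colours.
-/

namespace Pool.Agent.Results.MP_0d3379_co.PrecolouredMatching

open Finset

/-- `cv`, `ce` (colours of vertices and of edges) form a total colouring of `G`. -/
def IsTotalColoring {V C : Type} (G : SimpleGraph V) (cv : V → C) (ce : Sym2 V → C) : Prop :=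
  (∀ u v, G.Adj u v → cv u ≠ cv v) ∧
  (∀ u v w, G.Adj u v → G.Adj u w → v ≠ w → ce s(u, v) ≠ ce s(u, w)) ∧
  (∀ u v, G.Adj u v → ce s(u, v) ≠ cv u)

/-- `fv`, `fe` (only their values on the vertices and edges of `H` matter) form a total colouring
of the subgraph `H` in `G`: a total colouring of `H` in which moreover any two vertices of `H`
that are adjacent in `G` receive different colours. -/
def IsTotalColoringIn {V C : Type} (G : SimpleGraph V) (H : G.Subgraph) (fv : V → C)
    (fe : Sym2 V → C) : Prop :=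
  (∀ u v, u ∈ H.verts → v ∈ H.verts → G.Adj u v → fv u ≠ fv v) ∧
  (∀ u v w, H.Adj u v → H.Adj u w → v ≠ w → fe s(u, v) ≠ fe s(u, w)) ∧
  (∀ u v, H.Adj u v → fe s(u, v) ≠ fv u)

/-- The colouring `fv`, `fe` of `H` extends to a total colouring of `G`. -/
def Extends {V C : Type} (G : SimpleGraph V) (H : G.Subgraph) (fv : V → C)
    (fe : Sym2 V → C) : Prop :=
  ∃ (cv : V → C) (ce : Sym2 V → C), IsTotalColoring G cv ce ∧
    (∀ v ∈ H.verts, cv v = fv v) ∧ (∀ e ∈ H.edgeSet, ce e = fe e)

/-- The 6-regular graph on 13 vertices: `X = {0,...,6}`, `Y = {7,...,12}`. -/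
def half (i j : Fin 13) : Bool :=
  (decide (i = 0) && (decide (j = 1) || decide (j = 2) || decide (j = 3) || decide (10 ≤ j))) ||
  (decide (i = 1) && decide (7 ≤ j) && decide (j ≠ 10)) ||
  (decide (i = 2) && decide (7 ≤ j) && decide (j ≠ 11)) ||
  (decide (i = 3) && decide (7 ≤ j) && decide (j ≠ 12)) ||
  (decide (4 ≤ i) && decide (i ≤ 6) && decide (7 ≤ j))

def adj (i j : Fin 13) : Bool := half i j || half j i

lemma adj_symm : ∀ i j, adj i j = true → adj j i = true := by decide +kernel
lemma adj_irrefl : ∀ i, ¬ adj i i = true := by decide +kernel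

def deg (i : Fin 13) : ℕ := (univ.filter (fun j => adj i j = true)).card
lemma deg_eq : ∀ i, deg i = 6 := by decide +kernel

section count
variable (col : Fin 13 → Fin 13 → Fin 10)

def inc (c : Fin 10) (v : Fin 13) : ℕ :=
  (univ.filter (fun w => adj v w = true ∧ col v w = c)).card

lemma sum_inc (v : Fin 13) : ∑ c, inc col c v = 6 := by
  have h := Finset.card_eq_sum_card_fiberwise (s := univ.filter (fun j => adj v j = true))
    (t := (univ : Finset (Fin 10))) (f := fun w => col v w) (fun _ _ => mem_coe.mpr (mem_univ _))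
  have h2 := deg_eq v
  unfold deg at h2
  rw [h2] at h
  rw [h]
  apply Finset.sum_congr rfl
  intro c _
  unfold inc
  rw [Finset.filter_filter]

lemma inc_le (hp : ∀ u v w, adj u v = true → adj u w = true → v ≠ w → col u v ≠ col u w)
    (c : Fin 10) (v : Fin 13) : inc col c v ≤ 1 := by
  unfold inc
  rw [Finset.card_le_one]
  intro a ha b hb
  simp only [mem_filter, mem_univ, true_and] at ha hb
  by_contra hab
  exact hp v a b ha.1 hb.1 hab (ha.2.trans hb.2.symm)

def Gc (hs : ∀ v w, col v w = col w v) (c : Fin 10) : SimpleGraph (Fin 13) where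
  Adj v w := adj v w = true ∧ col v w = c
  symm := ⟨fun v w h => ⟨adj_symm _ _ h.1, by rw [hs w v]; exact h.2⟩⟩
  loopless := ⟨fun v h => adj_irrefl v h.1⟩

lemma even_inc (hs : ∀ v w, col v w = col w v) (c : Fin 10) : Even (∑ v, inc col c v) := by
  classical
  have h := (Gc col hs c).sum_degrees_eq_twice_card_edges
  have h2 : ∑ v, inc col c v = ∑ v, (Gc col hs c).degree v := by
    apply Finset.sum_congr rfl
    intro v _
    rw [← SimpleGraph.card_neighborFinset_eq_degree, inc]
    congr 1
    ext w
    simp only [mem_filter, mem_univ, true_and, SimpleGraph.mem_neighborFinset]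
    rfl
  rw [h2, h]
  exact even_two_mul _

lemma low : ∀ v w : Fin 13, adj v w = true → 7 ≤ v → w < 7 := by decide +kernel
lemma low2 : ∀ v w : Fin 13, adj v w = true → v < 7 → w < 7 → (v = 0 ∨ w = 0) := by
  decide +kernel
lemma low3 : ∀ w : Fin 13, adj 0 w = true → w < 7 → (w = 1 ∨ w = 2 ∨ w = 3) := by decide +kernel

lemma key (hs : ∀ v w, col v w = col w v)
    (hp : ∀ u v w, adj u v = true → adj u w = true → v ≠ w → col u v ≠ col u w)
    (hX : ∀ v w, adj v w = true → v < 7 → col v w ≠ 0 ∧ col v w ≠ 1)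
    (hY : ∀ v w, adj v w = true → 7 ≤ v → col v w ≠ 2 ∧ col v w ≠ 3) : False := by
  have hle := fun c v => inc_le col hp c v
  have hev := fun c => even_inc col hs c
  have h78 : ∑ c, ∑ v, inc col c v = 78 := by
    rw [Finset.sum_comm]
    simp only [sum_inc]
    simp
  have h13 : ∀ c, ∑ v, inc col c v ≤ 13 := by
    intro c
    have := Finset.sum_le_sum (fun v (_ : v ∈ (univ : Finset (Fin 13))) => hle c v)
    simpa using this
  have h12 : ∀ c, ∑ v, inc col c v ≤ 12 := by
    intro c
    have h1 := h13 c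
    obtain ⟨r, hr⟩ := hev c
    omega
  -- colours 0, 1 are not used
  have h01 : ∀ c : Fin 10, (c = 0 ∨ c = 1) → ∑ v, inc col c v = 0 := by
    intro c hc
    apply Finset.sum_eq_zero
    intro v _
    unfold inc
    rw [Finset.card_eq_zero, Finset.filter_eq_empty_iff]
    rintro w - ⟨h1, h2⟩
    by_cases hv : v < 7
    · have := hX v w h1 hv
      rcases hc with rfl | rfl
      · exact this.1 h2
      · exact this.2 h2
    · have hw := low v w h1 (not_lt.mp hv)
      have := hX w v (adj_symm _ _ h1) hw
      rw [hs w v] at this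
      rcases hc with rfl | rfl
      · exact this.1 h2
      · exact this.2 h2
  -- colours 2, 3 are used at most once
  have h23 : ∀ c : Fin 10, (c = 2 ∨ c = 3) → ∑ v, inc col c v ≤ 2 := by
    intro c hc
    have hY' : ∀ v w, adj v w = true → col v w = c → v < 7 ∧ w < 7 := by
      intro v w h1 h2
      constructor
      · by_contra h
        have := hY v w h1 (not_lt.mp h)
        rcases hc with rfl | rfl
        · exact this.1 h2
        · exact this.2 h2
      · by_contra h
        have := hY w v (adj_symm _ _ h1) (not_lt.mp h)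
        rw [hs w v] at this
        rcases hc with rfl | rfl
        · exact this.1 h2
        · exact this.2 h2
    have hz : ∀ v : Fin 13, 4 ≤ v → inc col c v = 0 := by
      intro v hv
      unfold inc
      rw [Finset.card_eq_zero, Finset.filter_eq_empty_iff]
      rintro w - ⟨h1, h2⟩
      obtain ⟨hv7, hw7⟩ := hY' v w h1 h2
      rcases low2 v w h1 hv7 hw7 with rfl | rfl
      · revert hv; decide
      · have := low3 v (adj_symm _ _ h1) hv7
        rcases this with rfl | rfl | rfl <;> revert hv <;> decide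
    have hl : ∀ v : Fin 13, v ≠ 0 → inc col c v ≠ 0 → adj 0 v = true ∧ col 0 v = c := by
      intro v hv h
      unfold inc at h
      obtain ⟨w, hw⟩ := Finset.card_ne_zero.mp h
      simp only [mem_filter, mem_univ, true_and] at hw
      obtain ⟨hv7, hw7⟩ := hY' v w hw.1 hw.2
      rcases low2 v w hw.1 hv7 hw7 with h0 | rfl
      · exact absurd h0 hv
      · exact ⟨adj_symm _ _ hw.1, by rw [hs 0 v]; exact hw.2⟩
    have hpair : ∀ v w : Fin 13, v ≠ 0 → w ≠ 0 → v ≠ w → inc col c v = 0 ∨ inc col c w = 0 := by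
      intro v w hv hw hvw
      by_contra hc2
      push Not at hc2
      obtain ⟨a1, a2⟩ := hl v hv hc2.1
      obtain ⟨b1, b2⟩ := hl w hw hc2.2
      exact hp 0 v w a1 b1 hvw (a2.trans b2.symm)
    have p12 := hpair 1 2 (by decide) (by decide) (by decide)
    have p13 := hpair 1 3 (by decide) (by decide) (by decide)
    have p23 := hpair 2 3 (by decide) (by decide) (by decide)
    have l0 := hle c 0
    have l1 := hle c 1
    have l2 := hle c 2
    have l3 := hle c 3
    have hsum : ∑ v, inc col c v = inc col c 0 + inc col c 1 + inc col c 2 + inc col c 3 := by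
      simp only [Fin.sum_univ_succ, Fin.sum_univ_zero]
      have e4 := hz 4 (by decide)
      have e5 := hz 5 (by decide)
      have e6 := hz 6 (by decide)
      have e7 := hz 7 (by decide)
      have e8 := hz 8 (by decide)
      have e9 := hz 9 (by decide)
      have e10 := hz 10 (by decide)
      have e11 := hz 11 (by decide)
      have e12 := hz 12 (by decide)
      change inc col c 0 + (inc col c 1 + (inc col c 2 + (inc col c 3 + (inc col c 4 +
        (inc col c 5 + (inc col c 6 + (inc col c 7 + (inc col c 8 + (inc col c 9 +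
        (inc col c 10 + (inc col c 11 + (inc col c 12 + 0)))))))))))) = _
      omega
    omega
  have t0 := h01 0 (Or.inl rfl)
  have t1 := h01 1 (Or.inr rfl)
  have t2 := h23 2 (Or.inl rfl)
  have t3 := h23 3 (Or.inr rfl)
  have t4 := h12 4
  have t5 := h12 5
  have t6 := h12 6
  have t7 := h12 7
  have t8 := h12 8
  have t9 := h12 9
  have hsum10 : ∀ f : Fin 10 → ℕ, ∑ c, f c = f 0 + f 1 + f 2 + f 3 + f 4 + f 5 + f 6 + f 7 + f 8 + f 9 := by
    intro f
    simp only [Fin.sum_univ_succ, Fin.sum_univ_zero]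
    change f 0 + (f 1 + (f 2 + (f 3 + (f 4 + (f 5 + (f 6 + (f 7 + (f 8 + (f 9 + 0))))))))) = _
    omega
  rw [hsum10] at h78
  omega

end count

/-- The graph `G`: the 6-regular graph on 13 vertices with a pendant vertex attached to each
vertex. -/
def G : SimpleGraph (Fin 13 × Bool) where
  Adj p q := (p.2 = false ∧ q.2 = false ∧ adj p.1 q.1 = true) ∨ (p.1 = q.1 ∧ p.2 ≠ q.2)
  symm := ⟨by
    rintro p q (⟨h1, h2, h3⟩ | ⟨h1, h2⟩)
    · exact Or.inl ⟨h2, h1, adj_symm _ _ h3⟩
    · exact Or.inr ⟨h1.symm, h2.symm⟩⟩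
  loopless := ⟨by
    rintro p (⟨h1, h2, h3⟩ | ⟨h1, h2⟩)
    · exact adj_irrefl _ h3
    · exact h2 rfl⟩

/-- The matching formed by the 13 pendant edges. -/
def H : G.Subgraph where
  verts := Set.univ
  Adj p q := p.1 = q.1 ∧ p.2 ≠ q.2
  adj_sub h := Or.inr h
  edge_vert _ := Set.mem_univ _
  symm := ⟨fun _ _ h => ⟨h.1.symm, h.2.symm⟩⟩

lemma H_matching : H.IsMatching := by
  rintro ⟨v, b⟩ -
  refine ⟨(v, !b), ⟨rfl, by cases b <;> simp⟩, ?_⟩
  rintro ⟨w, c⟩ ⟨h1, h2⟩
  simp only at h1 h2
  subst h1
  cases b <;> cases c <;> simp_all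

/-- Colours of the vertices: 0 at the centre 0 and at 4, 5, 6; 1 at 1, 2, 3; 2 on `Y`; 4 at the
pendant vertices. -/
def fv (p : Fin 13 × Bool) : Fin 10 :=
  if p.2 = true then 4 else
    if p.1 = 1 ∨ p.1 = 2 ∨ p.1 = 3 then 1 else if p.1 < 7 then 0 else 2

/-- Colour of the pendant edge at `v`. -/
def pe (v : Fin 13) : Fin 10 :=
  if v = 1 ∨ v = 2 ∨ v = 3 then 0 else if v < 7 then 1 else 3

/-- Colours of the edges. -/
def fe : Sym2 (Fin 13 × Bool) → Fin 10 :=
  Sym2.lift ⟨fun p q => if p.1 = q.1 then pe p.1 else 0, by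
    intro p q
    by_cases h : p.1 = q.1
    · simp [h]
    · have h' : ¬ q.1 = p.1 := fun e => h e.symm
      simp [h, h']⟩

lemma col1 : ∀ v w : Fin 13, adj v w = true → fv (v, false) ≠ fv (w, false) := by decide +kernel
lemma col2 : ∀ v : Fin 13, fv (v, false) ≠ 4 ∧ pe v ≠ 4 ∧ pe v ≠ fv (v, false) := by decide +kernel
lemma colX : ∀ v : Fin 13, v < 7 → (fv (v, false) = 0 ∧ pe v = 1) ∨ (fv (v, false) = 1 ∧ pe v = 0) := by
  decide +kernel
lemma colY : ∀ v : Fin 13, 7 ≤ v → fv (v, false) = 2 ∧ pe v = 3 := by decide +kernel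

lemma fe_edge (v : Fin 13) (b c : Bool) : fe s((v, b), (v, c)) = pe v := by
  simp [fe]

lemma colouring : IsTotalColoringIn G H fv fe := by
  refine ⟨?_, ?_, ?_⟩
  · rintro ⟨u, b⟩ ⟨v, c⟩ - - (⟨h1, h2, h3⟩ | ⟨h1, h2⟩)
    · simp only at h1 h2 h3
      subst h1; subst h2
      exact col1 u v h3
    · simp only at h1 h2
      subst h1
      cases b <;> cases c
      · exact absurd rfl h2
      · intro h
        exact (col2 u).1 h
      · intro h
        exact (col2 u).1 h.symm
      · exact absurd rfl h2
  · rintro ⟨u, b⟩ ⟨v, c⟩ ⟨w, d⟩ ⟨h1, h2⟩ ⟨h3, h4⟩ h5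
    exfalso
    apply h5
    simp only at h1 h2 h3 h4
    subst h1; subst h3
    cases b <;> cases c <;> cases d <;> simp_all
  · rintro ⟨u, b⟩ ⟨v, c⟩ ⟨h1, h2⟩
    simp only at h1 h2
    subst h1
    rw [fe_edge]
    cases b
    · exact (col2 u).2.2
    · exact (col2 u).2.1

lemma not_extends : ¬ Extends G H fv fe := by
  rintro ⟨cv, ce, ⟨h1, h2, h3⟩, h4, h5⟩
  have hcv : ∀ v, cv v = fv v := fun v => h4 v (Set.mem_univ _)
  have hce : ∀ v : Fin 13, ce s((v, false), (v, true)) = pe v := by
    intro v
    rw [h5 _ (by rw [SimpleGraph.Subgraph.mem_edgeSet]; exact ⟨rfl, by simp⟩), fe_edge]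
  have hG : ∀ v w : Fin 13, adj v w = true → G.Adj (v, false) (w, false) :=
    fun v w h => Or.inl ⟨rfl, rfl, h⟩
  have hM : ∀ v : Fin 13, G.Adj (v, false) (v, true) := fun v => Or.inr ⟨rfl, by simp⟩
  have hA : ∀ v w : Fin 13, adj v w = true → ce s((v, false), (w, false)) ≠ fv (v, false) := by
    intro v w h
    rw [← hcv]
    exact h3 _ _ (hG v w h)
  have hB : ∀ v w : Fin 13, adj v w = true → ce s((v, false), (w, false)) ≠ pe v := by
    intro v w h
    rw [← hce]
    exact h2 _ _ _ (hG v w h) (hM v) (by simp)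
  refine key (fun v w => ce s((v, false), (w, false))) ?_ ?_ ?_ ?_
  · intro v w
    simp only [Sym2.eq_swap]
  · intro u v w huv huw hvw
    exact h2 _ _ _ (hG u v huv) (hG u w huw) (by simp [hvw])
  · intro v w h hv
    have a := hA v w h
    have b := hB v w h
    rcases colX v hv with ⟨x, y⟩ | ⟨x, y⟩
    · rw [x] at a; rw [y] at b; exact ⟨a, b⟩
    · rw [x] at a; rw [y] at b; exact ⟨b, a⟩
  · intro v w h hv
    have a := hA v w h
    have b := hB v w h
    obtain ⟨x, y⟩ := colY v hv
    rw [x] at a; rw [y] at b; exact ⟨a, b⟩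

open scoped Classical in
lemma maxDeg : G.maxDegree = 7 := by
  have hN : ∀ v : Fin 13, G.neighborFinset (v, false) =
      (univ.filter (fun w => adj v w = true)).image (fun w => (w, false)) ∪ {(v, true)} := by
    intro v
    ext ⟨w, c⟩
    simp only [SimpleGraph.mem_neighborFinset, mem_union, mem_image, mem_filter, mem_univ,
      true_and, mem_singleton, Prod.mk.injEq]
    constructor
    · rintro (⟨_, h2, h3⟩ | ⟨h1, h2⟩)
      · left; exact ⟨w, h3, rfl, h2.symm⟩
      · right
        refine ⟨h1.symm, ?_⟩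
        simp only at h2
        cases c
        · exact absurd rfl h2
        · rfl
    · rintro (⟨x, h1, h2, h3⟩ | ⟨h1, h2⟩)
      · subst h2; left; exact ⟨rfl, h3.symm, h1⟩
      · subst h1; subst h2; right; exact ⟨rfl, by simp⟩
  have hd0 : ∀ v : Fin 13, G.degree (v, false) = 7 := by
    intro v
    rw [← SimpleGraph.card_neighborFinset_eq_degree, hN, Finset.card_union_of_disjoint,
      Finset.card_image_of_injective _ (fun a b h => (Prod.mk.inj h).1), Finset.card_singleton]
    · have := deg_eq v
      unfold deg at this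
      rw [this]
    · rw [Finset.disjoint_singleton_right]
      simp
  have hd1 : ∀ v : Fin 13, G.degree (v, true) ≤ 1 := by
    intro v
    rw [← SimpleGraph.card_neighborFinset_eq_degree]
    have : G.neighborFinset (v, true) ⊆ {(v, false)} := by
      rintro ⟨w, c⟩ hw
      rw [SimpleGraph.mem_neighborFinset] at hw
      rcases hw with ⟨h1, _, _⟩ | ⟨h1, h2⟩
      · simp at h1
      · simp only at h1 h2
        subst h1
        cases c
        · simp
        · exact absurd rfl h2
    exact (Finset.card_le_card this).trans (by simp)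
  apply le_antisymm
  · apply SimpleGraph.maxDegree_le_of_forall_degree_le
    rintro ⟨v, b⟩
    cases b
    · exact (hd0 v).le
    · exact (hd1 v).trans (by norm_num)
  · rw [← hd0 0]
    exact G.degree_le_maxDegree _

open scoped Classical in
/-- There are a finite graph `G` with maximum degree 7, a matching `H` in `G` and a total colouring
of `H` in `G` with 10 colours that does not extend to `G`; so it is false that for every finite
graph `G` with maximum degree `Δ` and every matching `H` in `G`, every total colouring of `H` in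
`G` with `Δ + 3` colours extends to `G`. -/
theorem result :
    (∃ (G : SimpleGraph (Fin 13 × Bool)) (H : G.Subgraph) (fv : Fin 13 × Bool → Fin 10)
      (fe : Sym2 (Fin 13 × Bool) → Fin 10),
      G.maxDegree = 7 ∧ H.IsMatching ∧ IsTotalColoringIn G H fv fe ∧ ¬ Extends G H fv fe) ∧
    ¬ (∀ (V : Type) [Fintype V] (G : SimpleGraph V) (H : G.Subgraph), H.IsMatching →
      ∀ (fv : V → Fin (G.maxDegree + 3)) (fe : Sym2 V → Fin (G.maxDegree + 3)),
        IsTotalColoringIn G H fv fe → Extends G H fv fe) := by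
  refine ⟨⟨G, H, fv, fe, maxDeg, H_matching, colouring, not_extends⟩, ?_⟩
  intro h
  have h1 := h (Fin 13 × Bool) G H H_matching
  rw [maxDeg] at h1
  exact not_extends (h1 fv fe colouring)

end Pool.Agent.Results.MP_0d3379_co.PrecolouredMatching
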